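import Pool.Agent.H59.L.T374d34.N483.KM.Stm

/-!
# KM/WPM: weak Poincaré inequality on a large scale
-/

set_option autoImplicit false

namespace Pool.Agent.N277.KM

open MeasureTheory Set Filter Topology
open Pool.Agent.R754.KG (E)
open Pool.Agent.R755.KF (BL PB)
open Pool.Agent.N483.KM

namespace WPMaux

variable {k : ℕ}

/-- bounded continuous functions -/
def BC (F : E k → ℝ) : Prop := Continuous F ∧ ∃ C : ℝ, ∀ x, |F x| ≤ C

theorem BC.const (c : ℝ) : BC fun _ : E k => c := ⟨continuous_const, |c|, fun _ => le_rfl⟩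

theorem BC.add {F G : E k → ℝ} (hF : BC F) (hG : BC G) : BC fun x => F x + G x := by
  obtain ⟨c1, C1, b1⟩ := hF
  obtain ⟨c2, C2, b2⟩ := hG
  exact ⟨c1.add c2, C1 + C2, fun x => (abs_add_le _ _).trans (add_le_add (b1 x) (b2 x))⟩

theorem BC.mul {F G : E k → ℝ} (hF : BC F) (hG : BC G) : BC fun x => F x * G x := by
  obtain ⟨c1, C1, b1⟩ := hF
  obtain ⟨c2, C2, b2⟩ := hG
  refine ⟨c1.mul c2, C1 * C2, fun x => ?_⟩
  rw [abs_mul]
  exact mul_le_mul (b1 x) (b2 x) (abs_nonneg _) ((abs_nonneg _).trans (b1 x))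

theorem BC.cmul {F : E k → ℝ} (c : ℝ) (hF : BC F) : BC fun x => c * F x := (BC.const c).mul hF

theorem BC.sub {F G : E k → ℝ} (hF : BC F) (hG : BC G) : BC fun x => F x - G x := by
  have := hF.add (hG.cmul (-1))
  refine ⟨hF.1.sub hG.1, ?_⟩
  obtain ⟨C, hC⟩ := this.2
  refine ⟨C, fun x => ?_⟩
  have h : |F x + -1 * G x| ≤ C := hC x
  have e : F x + -1 * G x = F x - G x := by ring
  rw [e] at h
  exact h

theorem BC.pow {F : E k → ℝ} (hF : BC F) (n : ℕ) : BC fun x => F x ^ n := by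
  obtain ⟨c1, C1, b1⟩ := hF
  refine ⟨c1.pow n, C1 ^ n, fun x => ?_⟩
  rw [abs_pow]
  exact pow_le_pow_left₀ (abs_nonneg _) (b1 x) n

theorem BC.int {F : E k → ℝ} (hF : BC F) (ν : Measure (E k)) [IsFiniteMeasure ν] :
    Integrable F ν := by
  obtain ⟨c1, C1, b1⟩ := hF
  exact (integrable_const C1).mono' c1.aestronglyMeasurable
    (Eventually.of_forall fun x => by rw [Real.norm_eq_abs]; exact b1 x)

variable {ν : Measure (E k)} [IsProbabilityMeasure ν]

theorem int_sub_sq {F : E k → ℝ} (hF : BC F) (c : ℝ) :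
    ∫ x, (F x - c) ^ 2 ∂ν = (∫ x, F x ^ 2 ∂ν) - 2 * c * (∫ x, F x ∂ν) + c ^ 2 := by
  have e : (fun x => (F x - c) ^ 2) = fun x => (F x ^ 2 - 2 * c * F x) + c ^ 2 := by
    funext x
    ring
  have J0 : Integrable (fun x => 2 * c * F x) ν := (hF.cmul (2 * c)).int ν
  have J1 : Integrable (fun x => F x ^ 2) ν := (hF.pow 2).int ν
  have J2 : Integrable (fun x => F x ^ 2 - 2 * c * F x) ν := J1.sub J0
  rw [e, integral_add J2 (integrable_const _), integral_sub J1 J0, integral_const_mul,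
    integral_const]
  simp

/-- the variance is at most the mean square distance to a number -/
theorem var_le {F : E k → ℝ} (hF : BC F) (c : ℝ) :
    (∫ x, F x ^ 2 ∂ν) - (∫ x, F x ∂ν) ^ 2 ≤ ∫ x, (F x - c) ^ 2 ∂ν := by
  rw [int_sub_sq hF c]
  nlinarith [sq_nonneg ((∫ x, F x ∂ν) - c)]

/-- the variance of a perturbed function -/
theorem var_pert {F G : E k → ℝ} (hF : BC F) (hG : BC G) (m : ℝ) :
    (∫ x, F x ^ 2 ∂ν) - (∫ x, F x ∂ν) ^ 2 ≤
      2 * ((∫ x, G x ^ 2 ∂ν) - (∫ x, G x ∂ν) ^ 2) + 2 * ∫ x, (F x - m - G x) ^ 2 ∂ν := by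
  set c := ∫ x, G x ∂ν with hc
  have h1 := var_le (ν := ν) hF (m + c)
  have hw : BC fun x => F x - m - G x := (hF.sub (BC.const m)).sub hG
  have hu : BC fun x => G x - c := hG.sub (BC.const c)
  have h2 : ∫ x, (F x - (m + c)) ^ 2 ∂ν ≤
      ∫ x, (2 * (G x - c) ^ 2 + 2 * (F x - m - G x) ^ 2) ∂ν := by
    refine integral_mono (((hF.sub (BC.const (m + c))).pow 2).int ν)
      ((((hu.pow 2).cmul 2).add ((hw.pow 2).cmul 2)).int ν) fun x => ?_
    simp only
    nlinarith [sq_nonneg ((G x - c) - (F x - m - G x))]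
  have h3 : ∫ x, (2 * (G x - c) ^ 2 + 2 * (F x - m - G x) ^ 2) ∂ν =
      2 * (∫ x, (G x - c) ^ 2 ∂ν) + 2 * ∫ x, (F x - m - G x) ^ 2 ∂ν := by
    have J1 : Integrable (fun x => 2 * (G x - c) ^ 2) ν := ((hu.pow 2).cmul 2).int ν
    have J2 : Integrable (fun x => 2 * (F x - m - G x) ^ 2) ν := ((hw.pow 2).cmul 2).int ν
    rw [integral_add J1 J2, integral_const_mul, integral_const_mul]
  have h4 : ∫ x, (G x - c) ^ 2 ∂ν = (∫ x, G x ^ 2 ∂ν) - c ^ 2 := by
    rw [int_sub_sq hG c, ← hc]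
    ring
  rw [h3, h4] at h2
  exact h1.trans h2

/-- from fourth moments to second moments -/
theorem sq_le_fourth {F : E k → ℝ} (hF : BC F) (m l Q : ℝ) (hl : 0 < l)
    (h : ∫ x, (F x - m) ^ 4 ∂ν ≤ Q) : ∫ x, (F x - m) ^ 2 ∂ν ≤ (l + Q / l) / 2 := by
  have hu : BC fun x => F x - m := hF.sub (BC.const m)
  have h2 : ∫ x, (F x - m) ^ 2 ∂ν ≤ ∫ x, (l / 2 + 1 / (2 * l) * (F x - m) ^ 4) ∂ν := by
    refine integral_mono ((hu.pow 2).int ν)
      (((BC.const (l / 2)).add ((hu.pow 4).cmul (1 / (2 * l)))).int ν) fun x => ?_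
    simp only
    have e : l / 2 + 1 / (2 * l) * (F x - m) ^ 4 - (F x - m) ^ 2 =
        1 / (2 * l) * (l - (F x - m) ^ 2) ^ 2 := by
      field_simp
      ring
    have : 0 ≤ 1 / (2 * l) * (l - (F x - m) ^ 2) ^ 2 := by positivity
    linarith
  have h3 : ∫ x, (l / 2 + 1 / (2 * l) * (F x - m) ^ 4) ∂ν =
      l / 2 + 1 / (2 * l) * ∫ x, (F x - m) ^ 4 ∂ν := by
    have J2 : Integrable (fun x => 1 / (2 * l) * (F x - m) ^ 4) ν :=
      ((hu.pow 4).cmul (1 / (2 * l))).int ν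
    rw [integral_add (integrable_const _) J2, integral_const_mul, integral_const]
    simp
  rw [h3] at h2
  refine h2.trans ?_
  have h4 : 1 / (2 * l) * ∫ x, (F x - m) ^ 4 ∂ν ≤ 1 / (2 * l) * Q :=
    mul_le_mul_of_nonneg_left h (by positivity)
  have e : (l + Q / l) / 2 = l / 2 + 1 / (2 * l) * Q := by
    field_simp
  rw [e]
  linarith

theorem sub_sin (t : ℝ) : |t - Real.sin t| ≤ t ^ 2 := by
  have key : ∀ t : ℝ, 0 < t → |t - Real.sin t| ≤ t ^ 2 := by
    intro t ht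
    have h1 := Real.sin_le ht.le
    rw [abs_of_nonneg (by linarith)]
    rcases le_or_gt t 1 with h | h
    · have h2 := Real.sin_gt_sub_cube ht
      nlinarith [mul_nonneg (sq_nonneg t) (by linarith : (0 : ℝ) ≤ 1 - t), sq_nonneg t]
    · rcases le_or_gt t 2 with h' | h'
      · have h2 := Real.sin_nonneg_of_nonneg_of_le_pi ht.le (h'.trans Real.two_le_pi)
        nlinarith
      · have h2 := Real.neg_one_le_sin t
        nlinarith
  rcases lt_trichotomy t 0 with h | h | h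
  · have := key (-t) (by linarith)
    rw [Real.sin_neg, ← abs_neg] at this
    have e1 : -(-t - -Real.sin t) = t - Real.sin t := by ring
    rw [e1] at this
    simpa using this
  · rw [h]; simp
  · exact key t h

/-- truncation by the sine function -/
theorem trunc_fderiv {G : E k → ℝ} (hG : ContDiff ℝ 1 G) {a : ℝ} (ha : 0 < a) (m : ℝ) :
    ContDiff ℝ 1 (fun x => a * Real.sin ((G x - m) / a)) ∧
    ∀ x, ‖fderiv ℝ (fun x => a * Real.sin ((G x - m) / a)) x‖ ≤ ‖fderiv ℝ G x‖ := by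
  refine ⟨contDiff_const.mul (((hG.sub contDiff_const).div_const a).sin), fun x => ?_⟩
  have h1 : HasFDerivAt G (fderiv ℝ G x) x :=
    (hG.differentiable (by norm_num) x).hasFDerivAt
  have h2 : HasFDerivAt (fun x => (G x - m) * (1 / a)) ((1 / a : ℝ) • fderiv ℝ G x) x :=
    (h1.sub_const m).mul_const (1 / a)
  have h3 := h2.sin.const_mul a
  have e : (fun x => a * Real.sin ((G x - m) / a)) =
      fun x => a * Real.sin ((G x - m) * (1 / a)) := by
    funext x
    rw [mul_one_div]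
  rw [e, h3.fderiv, norm_smul, norm_smul, norm_smul, Real.norm_eq_abs, Real.norm_eq_abs,
    Real.norm_eq_abs, abs_of_pos ha, abs_of_pos (by positivity : 0 < 1 / a)]
  have h4 : |Real.cos ((G x - m) * (1 / a))| ≤ 1 := Real.abs_cos_le_one _
  have h5 : 0 ≤ 1 / a * ‖fderiv ℝ G x‖ := by positivity
  calc a * (|Real.cos ((G x - m) * (1 / a))| * (1 / a * ‖fderiv ℝ G x‖))
      ≤ a * (1 * (1 / a * ‖fderiv ℝ G x‖)) :=
        mul_le_mul_of_nonneg_left (mul_le_mul_of_nonneg_right h4 h5) ha.le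
    _ = ‖fderiv ℝ G x‖ := by field_simp

theorem fderiv_cmul {G : E k → ℝ} (hG : ContDiff ℝ 1 G) (c : ℝ) (x : E k) :
    ‖fderiv ℝ (fun x => c * G x) x‖ = |c| * ‖fderiv ℝ G x‖ := by
  have h1 : HasFDerivAt G (fderiv ℝ G x) x :=
    (hG.differentiable (by norm_num) x).hasFDerivAt
  rw [(h1.const_mul c).fderiv, norm_smul, Real.norm_eq_abs]

end WPMaux

open WPMaux

theorem t_WPM (h0 : S_LCI) (h1 : S_STR) (h2 : S_M4L) : S_WPM := by
  obtain ⟨p0, C4, hp0, hp1, hC4, hM4⟩ := h2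
  refine ⟨p0, (1 + 3 * C4) * (384 * Real.sqrt 384), hp0, hp1, by positivity, ?_⟩
  intro k ν r M C0 f hν hr hcr hM hf hf1
  obtain ⟨hPLS, -, B0, hB0, hPB⟩ := h0 k ν hν
  have hprob : IsProbabilityMeasure ν := hPB.prob
  have hM0 : 0 < M := by linarith
  set h : ℝ := M * r ^ 2 / 384 with hh
  have hhp : 0 < h := by positivity
  set rho : ℝ := 384 / M with hrho
  have hrp : 0 < rho := by positivity
  have hhr : h * rho = r ^ 2 := by
    rw [hh, hrho]
    field_simp
  set b : ℝ := Real.sqrt rho with hb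
  have hbp : 0 < b := Real.sqrt_pos.2 hrp
  have hb2 : b ^ 2 = rho := Real.sq_sqrt hrp.le
  set a : ℝ := Real.sqrt b with ha
  have hap : 0 < a := Real.sqrt_pos.2 hbp
  have ha2 : a ^ 2 = b := Real.sq_sqrt hbp.le
  set q : ℝ := Real.sqrt h with hq
  have hqp : 0 < q := Real.sqrt_pos.2 hhp
  have hq2 : q ^ 2 = h := Real.sq_sqrt hhp.le
  set E2 : ℝ := ∫ x, ‖fderiv ℝ f x‖ ^ 2 ∂ν with hE2
  -- first smoothing
  obtain ⟨g, gc, gb, gd, gE, gv⟩ := h1 k ν h 1 C0 f hν hhp one_pos hf hf1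
  have gBC : BC g := ⟨gc.continuous, 1, gb⟩
  -- fourth moment of g
  obtain ⟨m', hm'⟩ := hM4 k ν B0 r hPB hPLS hr hcr (fun x => q * g x)
    (contDiff_const.mul gc) (fun y => by
      rw [fderiv_cmul gc, abs_of_pos hqp]
      calc q * ‖fderiv ℝ g y‖ ≤ q * (1 / q) := mul_le_mul_of_nonneg_left (gd y) hqp.le
        _ = 1 := by field_simp)
  set m : ℝ := m' / q with hm
  have e1 : ∫ x, (q * g x - m') ^ 4 ∂ν = h ^ 2 * ∫ x, (g x - m) ^ 4 ∂ν := by
    rw [← integral_const_mul]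
    congr 1
    funext x
    have : q * g x - m' = q * (g x - m) := by
      rw [hm]
      field_simp
    rw [this, ← hq2]
    ring
  rw [e1] at hm'
  have g4 : ∫ x, (g x - m) ^ 4 ∂ν ≤ C4 * rho ^ 2 := by
    have : h ^ 2 * ∫ x, (g x - m) ^ 4 ∂ν ≤ h ^ 2 * (C4 * rho ^ 2) := by
      refine hm'.trans (le_of_eq ?_)
      calc C4 * r ^ 4 = C4 * (r ^ 2) ^ 2 := by ring
        _ = h ^ 2 * (C4 * rho ^ 2) := by rw [← hhr]; ring
    exact le_of_mul_le_mul_left this (by positivity)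
  -- truncation
  obtain ⟨tc, td⟩ := trunc_fderiv gc hap m
  set u : E k → ℝ := fun x => a * Real.sin ((g x - m) / a) with hu
  have ub : ∀ x, |u x| ≤ a := by
    intro x
    rw [hu]
    simp only
    rw [abs_mul, abs_of_pos hap]
    have := Real.abs_sin_le_one ((g x - m) / a)
    nlinarith
  have uBC : BC u := ⟨tc.continuous, a, ub⟩
  have uBL : BL (a + 1 / q) u := by
    refine ⟨tc, fun y => ?_, fun y => ?_⟩
    · have := ub y
      have : 0 < 1 / q := by positivity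
      linarith
    · have h1 := (td y).trans (gd y)
      linarith
  have hpert := var_pert (ν := ν) gBC uBC m
  have hw : ∫ x, (g x - m - u x) ^ 2 ∂ν ≤ C4 * (rho * b) := by
    have h5 : ∫ x, (g x - m - u x) ^ 2 ∂ν ≤ ∫ x, 1 / b * (g x - m) ^ 4 ∂ν := by
      have hgm : BC fun x => g x - m := gBC.sub (BC.const m)
      refine integral_mono (((hgm.sub uBC).pow 2).int ν) (((hgm.pow 4).cmul (1 / b)).int ν)
        fun x => ?_
      simp only [hu]
      set t := (g x - m) / a with ht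
      have hgt : g x - m = a * t := by
        rw [ht]
        field_simp
      rw [hgt, ← ha2]
      have h6 := sub_sin t
      have h7 : (t - Real.sin t) ^ 2 ≤ (t ^ 2) ^ 2 := by
        rw [← sq_abs (t - Real.sin t)]
        exact pow_le_pow_left₀ (abs_nonneg _) h6 2
      have e2 : (a * t - a * Real.sin t) ^ 2 = a ^ 2 * (t - Real.sin t) ^ 2 := by ring
      have e3 : 1 / a ^ 2 * (a * t) ^ 4 = a ^ 2 * (t ^ 2) ^ 2 := by
        field_simp
      rw [e2, e3]
      exact mul_le_mul_of_nonneg_left h7 (by positivity)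
    rw [integral_const_mul] at h5
    refine h5.trans ?_
    calc 1 / b * ∫ x, (g x - m) ^ 4 ∂ν ≤ 1 / b * (C4 * rho ^ 2) :=
          mul_le_mul_of_nonneg_left g4 (by positivity)
      _ = C4 * (rho * b) := by
          rw [← hb2]
          field_simp
  -- second smoothing
  obtain ⟨g2, g2c, g2b, g2d, g2E, g2v⟩ := h1 k ν h a (a + 1 / q) u hν hhp hap uBL ub
  have g2BC : BC g2 := ⟨g2c.continuous, a, g2b⟩
  obtain ⟨n', hn'⟩ := hM4 k ν B0 r hPB hPLS hr hcr (fun x => q / a * g2 x)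
    (contDiff_const.mul g2c) (fun y => by
      rw [fderiv_cmul g2c, abs_of_pos (by positivity)]
      calc q / a * ‖fderiv ℝ g2 y‖ ≤ q / a * (a / q) :=
            mul_le_mul_of_nonneg_left (g2d y) (by positivity)
        _ = 1 := by field_simp)
  set n : ℝ := n' / (q / a) with hn
  have e4 : ∫ x, (q / a * g2 x - n') ^ 4 ∂ν = (h ^ 2 / rho) * ∫ x, (g2 x - n) ^ 4 ∂ν := by
    rw [← integral_const_mul]
    congr 1
    funext x
    have : q / a * g2 x - n' = q / a * (g2 x - n) := by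
      rw [hn]
      field_simp
    rw [this, ← hq2, ← hb2, ← ha2]
    field_simp
  rw [e4] at hn'
  have g24 : ∫ x, (g2 x - n) ^ 4 ∂ν ≤ C4 * (rho * b) ^ 2 := by
    have : (h ^ 2 / rho) * ∫ x, (g2 x - n) ^ 4 ∂ν ≤ (h ^ 2 / rho) * (C4 * (rho * b) ^ 2) := by
      refine hn'.trans (le_of_eq ?_)
      calc C4 * r ^ 4 = C4 * (r ^ 2) ^ 2 := by ring
        _ = (h ^ 2 / rho) * (C4 * (rho * b) ^ 2) := by
            rw [← hhr, mul_pow rho b, hb2]
            field_simp
    exact le_of_mul_le_mul_left this (by positivity)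
  have hl : 0 < rho * b := by positivity
  have hv2 := (var_le (ν := ν) g2BC n).trans (sq_le_fourth g2BC n (rho * b) _ hl g24)
  have e5 : (rho * b + C4 * (rho * b) ^ 2 / (rho * b)) / 2 = (1 + C4) / 2 * (rho * b) := by
    field_simp
  rw [e5] at hv2
  -- energies
  have hE2' : ∫ x, ‖fderiv ℝ u x‖ ^ 2 ∂ν ≤ E2 := by
    refine le_trans ?_ gE
    have hc1 : BC fun x => ‖fderiv ℝ u x‖ :=
      ⟨(tc.continuous_fderiv (by norm_num)).norm, 1 / q, fun x => by
        rw [abs_of_nonneg (norm_nonneg _)]; exact (td x).trans (gd x)⟩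
    have hc2 : BC fun x => ‖fderiv ℝ g x‖ :=
      ⟨(gc.continuous_fderiv (by norm_num)).norm, 1 / q, fun x => by
        rw [abs_of_nonneg (norm_nonneg _)]; exact gd x⟩
    refine integral_mono ((hc1.pow 2).int ν) ((hc2.pow 2).int ν) fun x => ?_
    exact pow_le_pow_left₀ (norm_nonneg _) (td x) 2
  -- the constants
  have e6 : (1 + 3 * C4) * (384 * Real.sqrt 384) / (M * Real.sqrt M) =
      (1 + 3 * C4) * (rho * b) := by
    rw [hb, hrho, Real.sqrt_div (by norm_num : (0 : ℝ) ≤ 384)]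
    have : 0 < Real.sqrt M := Real.sqrt_pos.2 hM0
    field_simp
  have e7 : M * r ^ 2 / 64 = 6 * h := by
    rw [hh]
    ring
  rw [e6, e7]
  have h8 : 2 * h * (∫ x, ‖fderiv ℝ u x‖ ^ 2 ∂ν) ≤ 2 * h * E2 :=
    mul_le_mul_of_nonneg_left hE2' (by positivity)
  linarith [gv, hpert, hw, g2v, hv2, h8]

end Pool.Agent.N277.KM
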